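import Pool.Agent.H65.CRG.TD

/-!
# Mean squares of combinations of derivatives by Cauchy's formula
-/

set_option autoImplicit false

open Complex MeasureTheory Function

namespace Pool.Agent.H22.CRG

open Pool.Agent.H65.CRZ Pool.Agent.H65.CRG

/-- the kernel with general coefficients -/
noncomputable def ker (M : ℕ) (g : ℕ → ℂ) (z : ℂ) : ℂ :=
  ∑ i ∈ Finset.range M, g i * (i.factorial : ℂ) / z ^ i

/-- Cauchy's formula for one derivative -/
theorem cau1 {f : ℂ → ℂ} (hf : Differentiable ℂ f) (s : ℂ) {r L : ℝ} (hr : 0 < r) (hL : 0 < L)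
    (i : ℕ) :
    ∫ φ in (0 : ℝ)..(2 * Real.pi), f (s + r * cexp (φ * I) / L) / (r * cexp (φ * I)) ^ i =
      2 * Real.pi / ((i.factorial : ℂ) * (L : ℂ) ^ i) * iteratedDeriv i f s := by
  have h := (hf.differentiableOn (s := Metric.closedBall s (r / L))).circleIntegral_one_div_sub_center_pow_smul
    (div_pos hr hL) i
  have hLC : (L : ℂ) ≠ 0 := by exact_mod_cast hL.ne'
  have hrC : (r : ℂ) ≠ 0 := by exact_mod_cast hr.ne'
  have hfac : (i.factorial : ℂ) ≠ 0 := by exact_mod_cast i.factorial_ne_zero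
  rw [circleIntegral] at h
  have h1 : ∀ θ : ℝ, deriv (circleMap s (r / L)) θ • ((1 / (circleMap s (r / L) θ - s) ^ (i + 1)) •
      f (circleMap s (r / L) θ)) =
      (I * (L : ℂ) ^ i) * (f (s + r * cexp (θ * I) / L) / (r * cexp (θ * I)) ^ i) := by
    intro θ
    have e1 : circleMap s (r / L) θ = s + r * cexp (θ * I) / L := by
      rw [circleMap]
      push_cast
      ring
    have e2 : circleMap 0 (r / L) θ = r * cexp (θ * I) / L := by
      rw [circleMap_zero]
      push_cast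
      ring
    rw [deriv_circleMap, circleMap_sub_center, e1, e2, smul_eq_mul, smul_eq_mul]
    have he : cexp (θ * I) ≠ 0 := Complex.exp_ne_zero _
    rw [div_pow, pow_succ, pow_succ]
    field_simp
  simp only [h1] at h
  rw [intervalIntegral.integral_const_mul, smul_eq_mul] at h
  have h2 : (I * (L : ℂ) ^ i) ≠ 0 := mul_ne_zero I_ne_zero (pow_ne_zero _ hLC)
  apply mul_left_cancel₀ h2
  rw [h]
  field_simp

/-- the circle -/
noncomputable def zc' (r : ℝ) (φ : ℝ) : ℂ := r * cexp (φ * I)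

theorem zc'_ne {r : ℝ} (hr : 0 < r) (φ : ℝ) : zc' r φ ≠ 0 :=
  mul_ne_zero (by exact_mod_cast hr.ne') (Complex.exp_ne_zero _)

theorem norm_zc' {r : ℝ} (hr : 0 < r) (φ : ℝ) : ‖zc' r φ‖ = r := by
  rw [zc', norm_mul, Complex.norm_real, Real.norm_eq_abs, abs_of_pos hr, Complex.norm_exp_ofReal_mul_I,
    mul_one]

theorem cont_zc' (r : ℝ) : Continuous (zc' r) := by
  unfold zc'
  fun_prop

theorem cont_ker (M : ℕ) (g : ℕ → ℂ) {r : ℝ} (hr : 0 < r) :
    Continuous (fun φ : ℝ => ker M g (zc' r φ)) := by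
  unfold ker
  refine continuous_finsetSum _ fun i _ => ?_
  exact continuous_const.div ((cont_zc' r).pow i) fun φ => pow_ne_zero _ (zc'_ne hr φ)

theorem norm_ker_le (M : ℕ) (g : ℕ → ℂ) {r κ : ℝ} (hr : 0 < r) (hg : ∀ i < M, ‖g i‖ ≤ κ) (φ : ℝ) :
    ‖ker M g (zc' r φ)‖ ≤ κ * ∑ i ∈ Finset.range M, (i.factorial : ℝ) / r ^ i := by
  unfold ker
  refine (norm_sum_le _ _).trans ?_
  rw [Finset.mul_sum]
  refine Finset.sum_le_sum fun i hi => ?_
  rw [norm_div, norm_mul, norm_pow, norm_zc' hr, Complex.norm_natCast, mul_div_assoc]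
  exact mul_le_mul_of_nonneg_right (hg i (Finset.mem_range.1 hi)) (by positivity)

/-- Cauchy's formula with a kernel -/
theorem cau (M : ℕ) (g : ℕ → ℂ) {f : ℂ → ℂ} (hf : Differentiable ℂ f) (s : ℂ) {r L : ℝ}
    (hr : 0 < r) (hL : 0 < L) :
    1 / (2 * Real.pi : ℂ) * ∫ φ in (0 : ℝ)..(2 * Real.pi), f (s + zc' r φ / L) * ker M g (zc' r φ) =
      ∑ i ∈ Finset.range M, g i / (L : ℂ) ^ i * iteratedDeriv i f s := by
  have hLC : (L : ℂ) ≠ 0 := by exact_mod_cast hL.ne'
  have hpi : (Real.pi : ℂ) ≠ 0 := by exact_mod_cast Real.pi_ne_zero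
  have h1 : ∀ φ : ℝ, f (s + zc' r φ / L) * ker M g (zc' r φ) = ∑ i ∈ Finset.range M,
      (g i * (i.factorial : ℂ)) * (f (s + r * cexp (φ * I) / L) / (r * cexp (φ * I)) ^ i) := by
    intro φ
    rw [ker, Finset.mul_sum]
    refine Finset.sum_congr rfl fun i _ => ?_
    rw [zc']
    ring
  simp only [h1]
  have hc : ∀ i : ℕ, Continuous (fun φ : ℝ =>
      f (s + r * cexp (φ * I) / L) / (r * cexp (φ * I)) ^ i) := by
    intro i
    have hc1 : Continuous (fun φ : ℝ => f (s + zc' r φ / L)) :=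
      hf.continuous.comp (continuous_const.add ((cont_zc' r).div_const _))
    exact hc1.div ((cont_zc' r).pow i) fun φ => pow_ne_zero _ (zc'_ne hr φ)
  rw [intervalIntegral.integral_finsetSum]
  · rw [Finset.mul_sum]
    refine Finset.sum_congr rfl fun i _ => ?_
    rw [intervalIntegral.integral_const_mul, cau1 hf s hr hL i]
    have hfac : (i.factorial : ℂ) ≠ 0 := by exact_mod_cast i.factorial_ne_zero
    field_simp
  · intro i _
    exact ((hc i).const_mul _).intervalIntegrable _ _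

/-- the square of an integral -/
theorem dbl {ι : Type*} (P : Finset ι) (F : ι → ℝ → ℂ) (hF : ∀ i ∈ P, Continuous (F i)) :
    ((∑ i ∈ P, ‖1 / (2 * Real.pi : ℂ) * ∫ φ in (0 : ℝ)..(2 * Real.pi), F i φ‖ ^ 2 : ℝ) : ℂ) =
      1 / (2 * Real.pi : ℂ) ^ 2 * ∫ φ in (0 : ℝ)..(2 * Real.pi), ∫ ψ in (0 : ℝ)..(2 * Real.pi),
        ∑ i ∈ P, F i φ * (starRingEnd ℂ) (F i ψ) := by
  have hconj : ∀ i, ∫ ψ in (0 : ℝ)..(2 * Real.pi), (starRingEnd ℂ) (F i ψ) =
      (starRingEnd ℂ) (∫ ψ in (0 : ℝ)..(2 * Real.pi), F i ψ) := by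
    intro i
    rw [intervalIntegral.integral_of_le Real.two_pi_pos.le,
      intervalIntegral.integral_of_le Real.two_pi_pos.le, integral_conj]
  have hin : ∀ φ : ℝ, ∫ ψ in (0 : ℝ)..(2 * Real.pi), ∑ i ∈ P, F i φ * (starRingEnd ℂ) (F i ψ) =
      ∑ i ∈ P, F i φ * (starRingEnd ℂ) (∫ ψ in (0 : ℝ)..(2 * Real.pi), F i ψ) := by
    intro φ
    rw [intervalIntegral.integral_finsetSum]
    · refine Finset.sum_congr rfl fun i _ => ?_
      rw [intervalIntegral.integral_const_mul, hconj]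
    · intro i hi
      exact ((Complex.continuous_conj.comp (hF i hi)).const_mul _).intervalIntegrable _ _
  simp only [hin]
  rw [intervalIntegral.integral_finsetSum]
  · rw [Finset.mul_sum]
    push_cast
    refine Finset.sum_congr rfl fun i _ => ?_
    rw [intervalIntegral.integral_mul_const, ← Complex.ofReal_pow, ← Complex.normSq_eq_norm_sq,
      ← Complex.mul_conj, map_mul]
    have h1 : (starRingEnd ℂ) (1 / (2 * Real.pi : ℂ)) = 1 / (2 * Real.pi : ℂ) := by
      have h2 : (1 / (2 * Real.pi : ℂ)) = ((1 / (2 * Real.pi) : ℝ) : ℂ) := by push_cast; rfl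
      rw [h2, Complex.conj_ofReal]
    rw [h1]
    ring
  · intro i hi
    exact ((hF i hi).mul_const _).intervalIntegrable _ _

/-- comparison of double integrals -/
theorem dbl_approx (G H : ℝ → ℝ → ℂ) (hG : Continuous (uncurry G)) (hH : Continuous (uncurry H))
    {b : ℝ} (hb : ∀ φ ψ, ‖G φ ψ - H φ ψ‖ ≤ b) :
    ‖(1 / (2 * Real.pi : ℂ) ^ 2 * ∫ φ in (0 : ℝ)..(2 * Real.pi), ∫ ψ in (0 : ℝ)..(2 * Real.pi),
        G φ ψ) - 1 / (2 * Real.pi : ℂ) ^ 2 * ∫ φ in (0 : ℝ)..(2 * Real.pi),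
        ∫ ψ in (0 : ℝ)..(2 * Real.pi), H φ ψ‖ ≤ b := by
  have hpi := Real.two_pi_pos
  have g1 : ∀ φ, Continuous (G φ) := fun φ => hG.comp (Continuous.prodMk_right φ)
  have g2 : ∀ φ, Continuous (H φ) := fun φ => hH.comp (Continuous.prodMk_right φ)
  have g3 : Continuous (fun φ => ∫ ψ in (0 : ℝ)..(2 * Real.pi), G φ ψ) :=
    intervalIntegral.continuous_parametric_intervalIntegral_of_continuous' hG _ _
  have g4 : Continuous (fun φ => ∫ ψ in (0 : ℝ)..(2 * Real.pi), H φ ψ) :=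
    intervalIntegral.continuous_parametric_intervalIntegral_of_continuous' hH _ _
  rw [← mul_sub, ← intervalIntegral.integral_sub (g3.intervalIntegrable _ _)
    (g4.intervalIntegrable _ _)]
  have h1 : ∀ φ ∈ Set.uIoc (0 : ℝ) (2 * Real.pi), ‖(∫ ψ in (0 : ℝ)..(2 * Real.pi), G φ ψ) -
      ∫ ψ in (0 : ℝ)..(2 * Real.pi), H φ ψ‖ ≤ b * |2 * Real.pi - 0| := by
    intro φ _
    rw [← intervalIntegral.integral_sub ((g1 φ).intervalIntegrable _ _)
      ((g2 φ).intervalIntegrable _ _)]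
    exact intervalIntegral.norm_integral_le_of_norm_le_const fun ψ _ => hb φ ψ
  have h2 := intervalIntegral.norm_integral_le_of_norm_le_const h1
  rw [sub_zero, abs_of_pos hpi] at h2
  rw [norm_mul, norm_div, norm_one, norm_pow, norm_mul, Complex.norm_real, Complex.norm_ofNat,
    Real.norm_eq_abs, abs_of_pos Real.pi_pos]
  calc 1 / (2 * Real.pi) ^ 2 * _ ≤ 1 / (2 * Real.pi) ^ 2 * (b * (2 * Real.pi) * (2 * Real.pi)) :=
        mul_le_mul_of_nonneg_left h2 (by positivity)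
    _ = b := by
        field_simp

end Pool.Agent.H22.CRG
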