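import Pool.Agent.H22.CRG.LE0

/-!
# Mean squares of Levinson's auxiliary functions from the shifted second moment
-/

set_option autoImplicit false

open Complex MeasureTheory Function

namespace Pool.Agent.H22.CRG

open Pool.Agent.H65.CRZ Pool.Agent.H65.CRG

/-- the sum of the products at two points of the circle -/
noncomputable def Ph {ι : Type*} (P : Finset ι) (Z : ι → ℂ → ℂ) (w : ι → ℂ) (s : ℂ) (r L φ ψ : ℝ) :
    ℂ :=
  ∑ i ∈ P, Z i (s + zc' r φ / L) * (starRingEnd ℂ) (Z i (s + zc' r ψ / L)) *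
    ((‖w i‖ ^ 2 : ℝ) : ℂ)

theorem cont_Ph {ι : Type*} (P : Finset ι) (Z : ι → ℂ → ℂ) (hZ : ∀ i ∈ P, Differentiable ℂ (Z i))
    (w : ι → ℂ) (s : ℂ) (r L : ℝ) : Continuous (fun p : ℝ × ℝ => Ph P Z w s r L p.1 p.2) := by
  unfold Ph
  refine continuous_finsetSum _ fun i hi => ?_
  have h1 : Continuous (fun p : ℝ × ℝ => Z i (s + zc' r p.1 / L)) :=
    (hZ i hi).continuous.comp (continuous_const.add
      (((cont_zc' r).comp continuous_fst).div_const _))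
  have h2 : Continuous (fun p : ℝ × ℝ => Z i (s + zc' r p.2 / L)) :=
    (hZ i hi).continuous.comp (continuous_const.add
      (((cont_zc' r).comp continuous_snd).div_const _))
  exact (h1.mul (Complex.continuous_conj.comp h2)).mul continuous_const

/-- the mean square of a combination of derivatives -/
theorem kersq {ι : Type*} (P : Finset ι) (Z : ι → ℂ → ℂ) (hZ : ∀ i ∈ P, Differentiable ℂ (Z i))
    (w : ι → ℂ) (s : ℂ) {L r : ℝ} (hr : 0 < r) (hL : 0 < L) (M : ℕ) (g : ℕ → ℂ) :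
    ((∑ i ∈ P, ‖(∑ j ∈ Finset.range M, g j / (L : ℂ) ^ j * iteratedDeriv j (Z i) s) * w i‖ ^ 2 : ℝ) :
        ℂ) =
      1 / (2 * Real.pi : ℂ) ^ 2 * ∫ φ in (0 : ℝ)..(2 * Real.pi), ∫ ψ in (0 : ℝ)..(2 * Real.pi),
        Ph P Z w s r L φ ψ * (ker M g (zc' r φ) * (starRingEnd ℂ) (ker M g (zc' r ψ))) := by
  have h1 : ∀ i ∈ P, (∑ j ∈ Finset.range M, g j / (L : ℂ) ^ j * iteratedDeriv j (Z i) s) * w i =
      1 / (2 * Real.pi : ℂ) * ∫ φ in (0 : ℝ)..(2 * Real.pi),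
        Z i (s + zc' r φ / L) * ker M g (zc' r φ) * w i := by
    intro i hi
    rw [intervalIntegral.integral_mul_const, ← cau M g (hZ i hi) s hr hL]
    ring
  have h2 : ∑ i ∈ P, ‖(∑ j ∈ Finset.range M, g j / (L : ℂ) ^ j * iteratedDeriv j (Z i) s) *
      w i‖ ^ 2 = ∑ i ∈ P, ‖1 / (2 * Real.pi : ℂ) * ∫ φ in (0 : ℝ)..(2 * Real.pi),
        Z i (s + zc' r φ / L) * ker M g (zc' r φ) * w i‖ ^ 2 :=
    Finset.sum_congr rfl fun i hi => by rw [h1 i hi]
  have hc : ∀ i ∈ P, Continuous (fun φ : ℝ => Z i (s + zc' r φ / L) * ker M g (zc' r φ) * w i) := by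
    intro i hi
    have hc1 : Continuous (fun φ : ℝ => Z i (s + zc' r φ / L)) :=
      (hZ i hi).continuous.comp (continuous_const.add ((cont_zc' r).div_const _))
    exact (hc1.mul (cont_ker M g hr)).mul continuous_const
  rw [h2, dbl P _ hc]
  have h3 : ∀ φ ψ : ℝ, ∑ i ∈ P, Z i (s + zc' r φ / L) * ker M g (zc' r φ) * w i *
      (starRingEnd ℂ) (Z i (s + zc' r ψ / L) * ker M g (zc' r ψ) * w i) =
      Ph P Z w s r L φ ψ * (ker M g (zc' r φ) * (starRingEnd ℂ) (ker M g (zc' r ψ))) := by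
    intro φ ψ
    rw [Ph, Finset.sum_mul]
    refine Finset.sum_congr rfl fun i _ => ?_
    rw [← Complex.normSq_eq_norm_sq, ← Complex.mul_conj, map_mul, map_mul]
    ring
  simp only [h3]

theorem ker_kn (N : ℕ) (m : ℕ → ℝ) (z : ℂ) :
    ker (2 * N + 1) (fun i => (qm N m i : ℂ)) z = kn N m z := by
  unfold ker kn
  refine Finset.sum_congr rfl fun i _ => ?_
  push_cast
  rfl

theorem conj_kn (N : ℕ) (m : ℕ → ℝ) (R ψ : ℝ) :
    (starRingEnd ℂ) (kn N m (R / 2 * cexp (ψ * I))) = kn N m (R / 2 * cexp (-(ψ * I))) := by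
  unfold kn
  rw [map_sum]
  refine Finset.sum_congr rfl fun i _ => ?_
  have h2 : (starRingEnd ℂ) (R / 2 * cexp (ψ * I)) = R / 2 * cexp (-(ψ * I)) := by
    have h3 : ((R : ℂ) / 2) = ((R / 2 : ℝ) : ℂ) := by push_cast; rfl
    rw [h3, map_mul, Complex.conj_ofReal, ← Complex.exp_conj, map_mul, Complex.conj_ofReal,
      Complex.conj_I]
    ring_nf
  rw [map_div₀, Complex.conj_ofReal, map_pow, h2]

theorem zc'_eq (R φ : ℝ) : zc' (R / 2) φ = R / 2 * cexp (φ * I) := by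
  rw [zc']
  push_cast
  rfl

/-- the mean square of the auxiliary functions -/
theorem core (h3 : Pool.Agent.H65.CRG.T_DB) {ι : Type*} (P : Finset ι) (Z : ι → ℂ → ℂ)
    (hZ : ∀ i ∈ P, Differentiable ℂ (Z i)) (w : ι → ℂ) (s : ℂ) {L R x n₀ η C₁ κ Kq θ : ℝ} (N : ℕ)
    (m : ℕ → ℝ) (c : ℕ → ℂ) (hR : 0 < R) (hL : 0 < L) (hx : 0 < x) (hpm : 0 < 1 + pm N m (1 / 2))
    (hn₀ : 0 ≤ n₀) (hη : 0 ≤ η) (hθ : 0 < θ)
    (hΦ : ∀ φ ψ : ℝ, ‖Ph P Z w s (R / 2) L φ ψ -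
      n₀ * b0 (-R + R / 2 * cexp (φ * I)) (-R + R / 2 * cexp (-(ψ * I))) x‖ ≤ η * n₀)
    (hb : ∀ φ ψ : ℝ, ‖b0 (-R + R / 2 * cexp (φ * I)) (-R + R / 2 * cexp (-(ψ * I))) x‖ ≤ C₁)
    (hc : ∀ i < 2 * N + 1, ‖c i - (qm N m i : ℂ)‖ ≤ κ)
    (hq : ∀ i < 2 * N + 1, ‖(qm N m i : ℂ)‖ ≤ Kq) :
    ∑ i ∈ P, ‖(∑ j ∈ Finset.range (2 * N + 1), c j / (L : ℂ) ^ j * iteratedDeriv j (Z i) s) *
        w i‖ ^ 2 ≤
      n₀ * ((1 + θ) * (cQ N m R x +
          η * (Kq * ∑ j ∈ Finset.range (2 * N + 1), (j.factorial : ℝ) / (R / 2) ^ j) ^ 2) +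
        (1 + 1 / θ) * ((C₁ + η) *
          (κ * ∑ j ∈ Finset.range (2 * N + 1), (j.factorial : ℝ) / (R / 2) ^ j) ^ 2)) := by
  have hr : 0 < R / 2 := by positivity
  set K₁ : ℝ := ∑ j ∈ Finset.range (2 * N + 1), (j.factorial : ℝ) / (R / 2) ^ j with hK₁
  set M : ℕ := 2 * N + 1 with hM
  obtain ⟨hcb, hint⟩ := h3 N m R x hpm hR hx
  have hK₁0 : 0 ≤ K₁ := Finset.sum_nonneg fun j _ => by positivity
  -- the main part
  set SW : ℝ := ∑ i ∈ P, ‖(∑ j ∈ Finset.range M, (qm N m j : ℂ) / (L : ℂ) ^ j *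
    iteratedDeriv j (Z i) s) * w i‖ ^ 2 with hSW
  set SE : ℝ := ∑ i ∈ P, ‖(∑ j ∈ Finset.range M, (c j - (qm N m j : ℂ)) / (L : ℂ) ^ j *
    iteratedDeriv j (Z i) s) * w i‖ ^ 2 with hSE
  have hkc : ∀ g : ℕ → ℂ, Continuous (fun p : ℝ × ℝ => Ph P Z w s (R / 2) L p.1 p.2 *
      (ker M g (zc' (R / 2) p.1) * (starRingEnd ℂ) (ker M g (zc' (R / 2) p.2)))) := by
    intro g
    exact (cont_Ph P Z hZ w s (R / 2) L).mul (((cont_ker M g hr).comp continuous_fst).mul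
      (Complex.continuous_conj.comp ((cont_ker M g hr).comp continuous_snd)))
  have hsq1 : ∀ (g : ℕ → ℂ) (κ' : ℝ), (∀ i < M, ‖g i‖ ≤ κ') → ∀ φ ψ : ℝ,
      ‖ker M g (zc' (R / 2) φ) * (starRingEnd ℂ) (ker M g (zc' (R / 2) ψ))‖ ≤ (κ' * K₁) ^ 2 := by
    intro g κ' hg φ ψ
    rw [norm_mul, RCLike.norm_conj, sq]
    have a1 := norm_ker_le M g hr hg φ
    have a2 := norm_ker_le M g hr hg ψ
    exact mul_le_mul a1 a2 (norm_nonneg _) ((norm_nonneg _).trans a1)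
  have hW : SW ≤ n₀ * (cQ N m R x + η * (Kq * K₁) ^ 2) := by
    have e1 := kersq P Z hZ w s hr hL M (fun i => (qm N m i : ℂ))
    have e2 : Continuous (fun p : ℝ × ℝ => (n₀ : ℂ) * (b0 (-R + R / 2 * cexp (p.1 * I))
        (-R + R / 2 * cexp (-(p.2 * I))) x * (kn N m (R / 2 * cexp (p.1 * I)) *
          kn N m (R / 2 * cexp (-(p.2 * I)))))) := by
      have e3 : Continuous (fun φ : ℝ => kn N m (R / 2 * cexp (φ * I))) := by
        have := cont_ker M (fun i => (qm N m i : ℂ)) hr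
        simp only [hM, ker_kn, zc'_eq] at this
        exact this
      have e4 : Continuous (fun ψ : ℝ => kn N m (R / 2 * cexp (-(ψ * I)))) := by
        have := Complex.continuous_conj.comp e3
        refine this.congr fun ψ => ?_
        exact conj_kn N m R ψ
      exact continuous_const.mul (hcb.mul ((e3.comp continuous_fst).mul (e4.comp continuous_snd)))
    have e5 := dbl_approx (fun φ ψ => Ph P Z w s (R / 2) L φ ψ *
      (ker M (fun i => (qm N m i : ℂ)) (zc' (R / 2) φ) *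
        (starRingEnd ℂ) (ker M (fun i => (qm N m i : ℂ)) (zc' (R / 2) ψ))))
      (fun φ ψ => (n₀ : ℂ) * (b0 (-R + R / 2 * cexp (φ * I))
        (-R + R / 2 * cexp (-(ψ * I))) x * (kn N m (R / 2 * cexp (φ * I)) *
          kn N m (R / 2 * cexp (-(ψ * I)))))) (hkc _) e2 (b := η * n₀ * (Kq * K₁) ^ 2) (by
        intro φ ψ
        have e6 := hsq1 (fun i => (qm N m i : ℂ)) Kq hq φ ψ
        have e7 : ker M (fun i => (qm N m i : ℂ)) (zc' (R / 2) φ) *
            (starRingEnd ℂ) (ker M (fun i => (qm N m i : ℂ)) (zc' (R / 2) ψ)) =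
            kn N m (R / 2 * cexp (φ * I)) * kn N m (R / 2 * cexp (-(ψ * I))) := by
          rw [hM, ker_kn, ker_kn, zc'_eq, zc'_eq, conj_kn]
        rw [e7] at e6 ⊢
        have e8 : Ph P Z w s (R / 2) L φ ψ * (kn N m (R / 2 * cexp (φ * I)) *
            kn N m (R / 2 * cexp (-(ψ * I)))) - (n₀ : ℂ) * (b0 (-R + R / 2 * cexp (φ * I))
              (-R + R / 2 * cexp (-(ψ * I))) x * (kn N m (R / 2 * cexp (φ * I)) *
              kn N m (R / 2 * cexp (-(ψ * I))))) =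
            (Ph P Z w s (R / 2) L φ ψ - n₀ * b0 (-R + R / 2 * cexp (φ * I))
              (-R + R / 2 * cexp (-(ψ * I))) x) * (kn N m (R / 2 * cexp (φ * I)) *
              kn N m (R / 2 * cexp (-(ψ * I)))) := by ring
        rw [e8, norm_mul]
        exact mul_le_mul (hΦ φ ψ) e6 (norm_nonneg _) (by positivity))
    have e9 : 1 / (2 * Real.pi : ℂ) ^ 2 * ∫ φ in (0 : ℝ)..(2 * Real.pi),
        ∫ ψ in (0 : ℝ)..(2 * Real.pi), (n₀ : ℂ) * (b0 (-R + R / 2 * cexp (φ * I))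
        (-R + R / 2 * cexp (-(ψ * I))) x * (kn N m (R / 2 * cexp (φ * I)) *
          kn N m (R / 2 * cexp (-(ψ * I))))) = ((n₀ * cQ N m R x : ℝ) : ℂ) := by
      simp only [intervalIntegral.integral_const_mul]
      rw [mul_left_comm, hint]
      push_cast
      rfl
    rw [e9] at e5
    have e10 : ((SW : ℝ) : ℂ) = _ := e1
    rw [← e10, ← Complex.ofReal_sub, Complex.norm_real, Real.norm_eq_abs] at e5
    have e11 := (le_abs_self _).trans e5
    have e12 : n₀ * (cQ N m R x + η * (Kq * K₁) ^ 2) = n₀ * cQ N m R x + η * n₀ * (Kq * K₁) ^ 2 := by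
      ring
    rw [e12]
    linarith
  have hE : SE ≤ n₀ * ((C₁ + η) * (κ * K₁) ^ 2) := by
    have e1 := kersq P Z hZ w s hr hL M (fun i => c i - (qm N m i : ℂ))
    have hPh : ∀ φ ψ : ℝ, ‖Ph P Z w s (R / 2) L φ ψ‖ ≤ n₀ * (C₁ + η) := by
      intro φ ψ
      have a1 := norm_le_norm_add_norm_sub' (Ph P Z w s (R / 2) L φ ψ)
        (n₀ * b0 (-R + R / 2 * cexp (φ * I)) (-R + R / 2 * cexp (-(ψ * I))) x)
      have a2 : ‖(n₀ : ℂ) * b0 (-R + R / 2 * cexp (φ * I)) (-R + R / 2 * cexp (-(ψ * I))) x‖ ≤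
          n₀ * C₁ := by
        rw [norm_mul, Complex.norm_real, Real.norm_eq_abs, abs_of_nonneg hn₀]
        exact mul_le_mul_of_nonneg_left (hb φ ψ) hn₀
      have a3 := hΦ φ ψ
      have a4 : n₀ * (C₁ + η) = n₀ * C₁ + η * n₀ := by ring
      rw [a4]
      linarith
    have e5 := dbl_approx (fun φ ψ => Ph P Z w s (R / 2) L φ ψ *
      (ker M (fun i => c i - (qm N m i : ℂ)) (zc' (R / 2) φ) *
        (starRingEnd ℂ) (ker M (fun i => c i - (qm N m i : ℂ)) (zc' (R / 2) ψ))))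
      (fun _ _ => 0) (hkc _) continuous_const (b := n₀ * (C₁ + η) * (κ * K₁) ^ 2) (by
        intro φ ψ
        rw [sub_zero, norm_mul]
        exact mul_le_mul (hPh φ ψ) (hsq1 _ κ hc φ ψ) (norm_nonneg _)
          ((norm_nonneg _).trans (hPh φ ψ)))
    have e10 : ((SE : ℝ) : ℂ) = _ := e1
    rw [← e10] at e5
    simp only [intervalIntegral.integral_zero, mul_zero, sub_zero] at e5
    rw [Complex.norm_real, Real.norm_eq_abs] at e5
    have e11 := (le_abs_self _).trans e5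
    rw [← mul_assoc]
    exact e11
  -- the sum
  have hsum : ∑ i ∈ P, ‖(∑ j ∈ Finset.range M, c j / (L : ℂ) ^ j * iteratedDeriv j (Z i) s) *
      w i‖ ^ 2 ≤ (1 + θ) * SW + (1 + 1 / θ) * SE := by
    rw [hSW, hSE, Finset.mul_sum, Finset.mul_sum, ← Finset.sum_add_distrib]
    refine Finset.sum_le_sum fun i _ => ?_
    have a1 : (∑ j ∈ Finset.range M, c j / (L : ℂ) ^ j * iteratedDeriv j (Z i) s) * w i =
        (∑ j ∈ Finset.range M, (qm N m j : ℂ) / (L : ℂ) ^ j * iteratedDeriv j (Z i) s) * w i +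
        (∑ j ∈ Finset.range M, (c j - (qm N m j : ℂ)) / (L : ℂ) ^ j * iteratedDeriv j (Z i) s) *
          w i := by
      rw [← add_mul, ← Finset.sum_add_distrib]
      refine congrArg (· * w i) (Finset.sum_congr rfl fun j _ => ?_)
      ring
    rw [a1]
    set a := ‖(∑ j ∈ Finset.range M, (qm N m j : ℂ) / (L : ℂ) ^ j * iteratedDeriv j (Z i) s) *
      w i‖
    set b := ‖(∑ j ∈ Finset.range M, (c j - (qm N m j : ℂ)) / (L : ℂ) ^ j *
      iteratedDeriv j (Z i) s) * w i‖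
    have a2 := pow_le_pow_left₀ (norm_nonneg _) (norm_add_le
      ((∑ j ∈ Finset.range M, (qm N m j : ℂ) / (L : ℂ) ^ j * iteratedDeriv j (Z i) s) * w i)
      ((∑ j ∈ Finset.range M, (c j - (qm N m j : ℂ)) / (L : ℂ) ^ j * iteratedDeriv j (Z i) s) *
        w i)) 2
    refine a2.trans ?_
    change (a + b) ^ 2 ≤ _
    have a3 : 0 ≤ (θ * a - b) ^ 2 / θ := by positivity
    have a4 : (1 + θ) * a ^ 2 + (1 + 1 / θ) * b ^ 2 - (a + b) ^ 2 = (θ * a - b) ^ 2 / θ := by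
      field_simp
      ring
    linarith
  refine hsum.trans ?_
  have b1 := mul_le_mul_of_nonneg_left hW (by positivity : (0 : ℝ) ≤ 1 + θ)
  have b2 := mul_le_mul_of_nonneg_left hE (by positivity : (0 : ℝ) ≤ 1 + 1 / θ)
  have b3 : n₀ * ((1 + θ) * (cQ N m R x + η * (Kq * K₁) ^ 2) +
      (1 + 1 / θ) * ((C₁ + η) * (κ * K₁) ^ 2)) =
      (1 + θ) * (n₀ * (cQ N m R x + η * (Kq * K₁) ^ 2)) +
      (1 + 1 / θ) * (n₀ * ((C₁ + η) * (κ * K₁) ^ 2)) := by ring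
  rw [b3]
  exact add_le_add b1 b2

end Pool.Agent.H22.CRG
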